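import Pool.Agent.Helper77.HY.St
import Pool.Agent.Helper35.PM.All
import Pool.Agent.Helper82.HY.CNT
import Pool.Agent.Helper79.HY.KER
import Pool.Agent.Helper16.HY.BBS
import Pool.Agent.Helper42.HY.ORI
import Pool.Agent.Helper42.HY.LC
import Pool.Agent.Helper40.HY.EC
import Pool.Agent.Helper62.HY.MIN
import Pool.Agent.Helper4.HY.SUB
import Pool.Agent.Helper84.HY.EUL
import Pool.Agent.Helper74.HY.PC
import Pool.Agent.Helper28.HY.PIE
import Pool.Agent.Helper72.HY.ASM

/-!
# MP_7a9ddc_co, project HY: assembly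
-/

set_option autoImplicit false

namespace Pool.Agent.Helper77.HY

theorem stCnt : StCnt := Pool.Agent.Helper82.HY.CNT.main
theorem stKer : StKer := Pool.Agent.Helper79.HY.KER.main
theorem stBbs : StBbs := Pool.Agent.Helper16.HY.BBS.main stKer
theorem stOri : StOri := Pool.Agent.Helper42.HY.ORI.main
theorem stLc : StLc := Pool.Agent.Helper42.HY.LC.main stBbs stOri
theorem stEc : StEc := Pool.Agent.Helper40.HY.EC.main Pool.Agent.Helper35.PM.stEul stCnt
theorem stMinor : StMinor := Pool.Agent.Helper62.HY.MIN.main Pool.Agent.Helper35.PM.stMin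
theorem stSub : StSub := Pool.Agent.Helper4.HY.SUB.main stMinor
theorem stEub : StEub := Pool.Agent.Helper84.HY.EUL.main stCnt stEc stSub
theorem stPc : StPc := Pool.Agent.Helper74.HY.PC.main stMinor stEub stCnt
theorem stPie : StPie := Pool.Agent.Helper28.HY.PIE.main stPc stLc
theorem stAsm : StAsm := Pool.Agent.Helper72.HY.ASM.main stPie

end Pool.Agent.Helper77.HY
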