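import Pool.Agent.Helper35.PM.St2

/-!
# MP_7a9ddc_co, project HY (hybrid decompositions): definitions and statements of the modules

THEOREM (HY). Let `G` be a triangle-free planar graph and let `V = I + F + K_1 + ... + K_m`, where `I`
is independent, `G[F]` is 2-choosable, there are no edges between `F` and the `K_i` and between
different `K_i`, and every `K = K_i` is a good piece (`GoodPiece` below). Then `G` is
`{1,2}`-choosable.

PROOF. Give `I` the colours of `A`, colour `F` from the 2-lists `L v \ A`. In a piece `K` colour the (at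
most two) vertices of `S` from `L v \ A`, delete for every vertex of `K \ S` the colours of its
neighbours in `S`, and the colour of `A` if it has a neighbour in `I`. The rest `K \ S` is bipartite,
and if `w u` is the number of colours which `u` loses at most, then every `U` (subset of `K \ S`) has
`e(U) + w(U) <= 2 |U|` by Euler's formula for the minor of `G` on `U`, `S` and the contracted sets
`Q` (elements of `C`). So there is an orientation of `G[K \ S]` with out-degrees `<= 2 - w u`, and
kernels in this digraph give the colouring.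

All modules are independent: earlier statements may be used as hypotheses.
-/

set_option autoImplicit false

namespace Pool.Agent.Helper77.HY

open Pool.Agent.Helper35.PM

/-- the number of edges of `G` with both ends in the finite set `U` -/
noncomputable def eN {V : Type} (G : SimpleGraph V) (U : Finset V) : ℕ :=
  {e : Sym2 V | e ∈ G.edgeSet ∧ ∀ v ∈ e, v ∈ U}.ncard

/-- the number of neighbours of `v` in `U` -/
noncomputable def dg {V : Type} (G : SimpleGraph V) (v : V) (U : Finset V) : ℕ :=
  {u : V | u ∈ U ∧ G.Adj v u}.ncard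

/-- `G[F]` is 2-choosable -/
def TwoChoosableOn {V : Type} (G : SimpleGraph V) (F : Set V) : Prop :=
  ∀ M : V → Finset ℕ, (∀ v ∈ F, (M v).card = 2) →
    ∃ c : V → ℕ, (∀ v ∈ F, c v ∈ M v) ∧ ∀ u ∈ F, ∀ v ∈ F, G.Adj u v → c u ≠ c v

/-- the edges of `G[K \ S]` both ends of which have a neighbour in `I` -/
def badEdges {V : Type} (G : SimpleGraph V) (I K S : Set V) : Set (Sym2 V) :=
  {e | e ∈ G.edgeSet ∧ ∀ u ∈ e, u ∈ K \ S ∧ ∃ x ∈ I, G.Adj u x}

/-- A good piece `K` (relative to `I`): there are a set `S` (subset of `K`) and disjoint connected sets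
`Q` (elements of `C`) outside `K` such that `G[K \ S]` is bipartite, all neighbours in `I` of vertices
of `K \ S` lie in the sets `Q`, and `2 (|S| + |C|)` plus the number of bad edges is at most four. -/
def GoodPiece {V : Type} (G : SimpleGraph V) (I K : Set V) : Prop :=
  ∃ (S : Finset V) (C : Finset (Set V)),
    (S : Set V) ⊆ K ∧ (G.induce (K \ (S : Set V))).Colorable 2 ∧
    (∀ Q ∈ C, (G.induce Q).Connected ∧ Disjoint Q K) ∧
    (∀ Q ∈ C, ∀ Q' ∈ C, Q ≠ Q' → Disjoint Q Q') ∧
    (∀ u ∈ K \ (S : Set V), ∀ x ∈ I, G.Adj u x → ∃ Q ∈ C, x ∈ Q) ∧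
    2 * (S.card + C.card) + (badEdges G I K S).ncard ≤ 4

/-! ### Module CNT (counting edges, 60-100 lines)

`(1)` monotonicity: `Set.ncard_le_ncard`. `(2)` an edge with both ends in `U ∪ T` has both ends in
`U`, or both in `T`, or one in each; the edges of the third kind are counted by their end `t` in `T`:
induction on `T` (insert one vertex; the edges `s(t, u)`, `u ∈ U`), or a bijection. `(3)` all edges.
`(4)` the map `Sym2.map Subtype.val` is a bijection of the edges of `G.induce U` onto the edges of `G`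
with both ends in `U`. -/
def StCnt : Prop :=
  (∀ (V : Type) [Finite V] (G : SimpleGraph V) (U U' : Finset V), U ⊆ U' → eN G U ≤ eN G U') ∧
  (∀ (V : Type) [Finite V] [DecidableEq V] (G : SimpleGraph V) (U T : Finset V), Disjoint U T →
    eN G (U ∪ T) = eN G U + eN G T + ∑ t ∈ T, dg G t U) ∧
  (∀ (V : Type) [Fintype V] [DecidableEq V] (G : SimpleGraph V) [DecidableRel G.Adj],
    eN G Finset.univ = G.edgeFinset.card) ∧
  (∀ (V : Type) [Fintype V] (G : SimpleGraph V) (U : Finset V),
    eN (G.induce (U : Set V)) Finset.univ = eN G U)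

/-! ### Module KER (kernels of bipartite digraphs, 80-150 lines)

`O v` is the set of out-neighbours of `v`. For every nonempty finite `U` in which `p` is a proper
2-colouring of the arcs, the digraph induced on `U` has a kernel `K`: no arc inside `K`, and every
vertex of `U \ K` has an out-neighbour in `K`.

PROOF by strong induction on `|U|` (Richardson). Let `r(v)` be the set of vertices of `U` which can be
reached from `v` by arcs inside `U` (including `v`), choose `v` in `U` with `|r(v)|` minimal and put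
`T = r(v)`: then `r(u) = T` for every `u` in `T` (`r(u) ⊆ r(v)`), so all arcs from `T` inside `U` stay
in `T` and `T` is strongly connected. If `T = {v}` put `K1 = {v}`. Otherwise every `u` in `T` has an
out-neighbour in `T` (it reaches a different vertex of `T`), which has the other colour; let
`K1` be the set of the `u` in `T` with `p u = true`; it is nonempty and every vertex of `T \ K1` has
an out-neighbour in `K1`. Let `U'` be the set of the `u` in `U \ T` without out-neighbour in `K1`.
By induction (or trivially if it is empty) `U'` has a kernel `K2`; `K = K1 ∪ K2` works: no arc from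
`K1` to `K2` since arcs from `T` stay in `T`, no arc from `K2` to `K1` by the choice of `U'`. -/
def StKer : Prop :=
  ∀ (V : Type) (O : V → Set V) (p : V → Bool) (U : Finset V),
    (∀ u ∈ U, ∀ v ∈ U, v ∈ O u → p u ≠ p v) →
    ∃ K : Finset V, K ⊆ U ∧ (U.Nonempty → K.Nonempty) ∧ (∀ u ∈ K, ∀ v ∈ K, v ∉ O u) ∧
      ∀ u ∈ U, u ∉ K → ∃ v ∈ K, v ∈ O u

/-! ### Module BBS (Bondy, Boppana, Siegel; 60-100 lines)

PROOF by induction on `|R|` for all `L`. If `R` is nonempty choose `v0` in `R` and a colour `γ` in
`L v0` (nonempty, as its cardinality is larger than a cardinality). Let `U` be the set of the `u` in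
`R` with `γ ∈ L u` and `K` a kernel of `U` (`StKer` for `O u` as a set; `p` is proper on arcs
inside `R` because arcs are edges). Colour `K` with `γ` (no edge inside `K`: every edge inside `R` is
an arc in at least one direction), remove `K` from `R` and `γ` from all lists: a vertex `u` of `U \ K`
loses one colour, but also an out-neighbour in `R`; a vertex of `R \ U` does not lose a colour. -/
def StBbs : Prop :=
  ∀ (V : Type) [DecidableEq V] (G : SimpleGraph V) (R : Finset V) (p : V → Bool) (O : V → Finset V),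
    (∀ u ∈ R, ∀ v ∈ R, G.Adj u v → p u ≠ p v) →
    (∀ u ∈ R, ∀ v ∈ O u, G.Adj u v) →
    (∀ u ∈ R, ∀ v ∈ R, G.Adj u v → v ∈ O u ∨ u ∈ O v) →
    ∀ L : V → Finset ℕ, (∀ u ∈ R, (O u ∩ R).card < (L u).card) →
    ∃ c : V → ℕ, (∀ v ∈ R, c v ∈ L v) ∧ ∀ u ∈ R, ∀ v ∈ R, G.Adj u v → c u ≠ c v

/-! ### Module ORI (orientations with bounded out-degrees, Hakimi; 60-120 lines)

PROOF. Hall's theorem (`Finset.all_card_le_biUnion_card_iff_exists_injective`) for the family which
assigns to every edge `e` of `G[R]` the set of the slots `(v, i)` with `v ∈ e` and `i < cap v`: a set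
`A` of edges of `G[R]` with set `U` of end vertices has `|A| ≤ eN G U ≤ ∑ v ∈ U, cap v`, the number
of slots at `U`. So there is an injective choice `f` of slots; `O u` is the set of the `v` in `R` with
`G.Adj u v` such that the slot of the edge `s(u, v)` is at `u`. -/
def StOri : Prop :=
  ∀ (V : Type) [Finite V] [DecidableEq V] (G : SimpleGraph V) (R : Finset V) (cap : V → ℕ),
    (∀ U ⊆ R, eN G U ≤ ∑ v ∈ U, cap v) →
    ∃ O : V → Finset V, (∀ u, ∀ v ∈ O u, G.Adj u v) ∧
      (∀ u ∈ R, ∀ v ∈ R, G.Adj u v → v ∈ O u ∨ u ∈ O v) ∧ ∀ u ∈ R, (O u).card ≤ cap u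

/-! ### Module LC (list colouring of sparse bipartite graphs; 30-50 lines)

PROOF. From `StOri` with `cap u = 2 - w u` (`w u ≤ 2` for `u ∈ R` by the hypothesis for `U = {u}`,
so `∑ cap = 2 |U| - ∑ w`), and `StBbs`. -/
def StLc : Prop :=
  ∀ (V : Type) [Finite V] (G : SimpleGraph V) (R : Finset V) (p : V → Bool) (w : V → ℕ),
    (∀ u ∈ R, ∀ v ∈ R, G.Adj u v → p u ≠ p v) →
    (∀ U ⊆ R, eN G U + ∑ v ∈ U, w v ≤ 2 * U.card) →
    ∀ L : V → Finset ℕ, (∀ v ∈ R, 3 ≤ (L v).card + w v) →
    ∃ c : V → ℕ, (∀ v ∈ R, c v ∈ L v) ∧ ∀ u ∈ R, ∀ v ∈ R, G.Adj u v → c u ≠ c v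

/-! ### Module EC (Euler bound, connected case; 60-120 lines)

PROOF. Take a rotation system `R` of the connected graph `H`, at least three vertices, no triangle.
Every cycle of the face permutation `R.φ` has at least four darts: the length of a face is not `1`
(`R.φ d = d` would give `d.snd = d.fst`, see `Rot.φ_fst`), not `2` (`R.φ (R.φ d) = d` gives
`R.φ d = d.symm`, i.e. `R.r d.symm = d.symm`, and likewise `R.r d = d`: both ends of `d` have degree
one, so by connectedness there are only two vertices), and not `3` (triangle). So `4 f ≤ 2 e`, where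
`f` is the number of faces and `2 e` the number of darts
(`SimpleGraph.dart_card_eq_twice_card_edges`), and Euler's formula (`StEul` of PM,
theorem `Pool.Agent.Helper35.PM.stEul` in PM/All.lean) `n - e + f = 2` gives `e ≤ 2 n - 4`. -/
def StEc : Prop :=
  ∀ (W : Type) [Fintype W] (H : SimpleGraph W), Planar H → TF H → H.Connected →
    3 ≤ Fintype.card W → eN H Finset.univ + 4 ≤ 2 * Fintype.card W

/-! ### Module EUL (Euler bound, general case; 60-120 lines)

PROOF. Strong induction on the number of vertices, from `StEc`, `StCnt` and `StSub` below. If `H` is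
not connected, the vertex set is the disjoint union of two nonempty sets `A`, `B` without edges
between them, `e = e(A) + e(B)`; and `e(A) ≤ b(|A|)` with `b(1) = 0`, `b(2) = 1`,
`b(n) = 2 n - 4` for `n ≥ 3`, so `e + 4 ≤ 2 n`; moreover `e + 6 ≤ 2 n` if `n ≥ 4`
(pairs `(1,3)`: `2 + 6 ≤ 8`, `(2,2)`: `2 + 6 ≤ 8`, `(1,n)`, `(2,n)`, `(m,n)` clear). -/
def StEub : Prop :=
  ∀ (W : Type) [Fintype W] (H : SimpleGraph W), Planar H → TF H →
    (3 ≤ Fintype.card W → eN H Finset.univ + 4 ≤ 2 * Fintype.card W) ∧
    (4 ≤ Fintype.card W → ¬ H.Connected → eN H Finset.univ + 6 ≤ 2 * Fintype.card W)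

/-! ### Module MIN (minors; 40-80 lines)

PROOF. `StMin` of PM (theorem `Pool.Agent.Helper35.PM.stMin`) for the map `R.map` of a rotation system
`R` of `G` and `n = Fintype.card G.Dart`. -/
def StMinor : Prop :=
  ∀ (V W : Type) [Finite V] (G : SimpleGraph V) (H : SimpleGraph W) (B : W → Set V), Planar G →
    (∀ w, (G.induce (B w)).Connected) → (∀ w w', w ≠ w' → Disjoint (B w) (B w')) →
    (∀ w w', H.Adj w w' → ∃ a ∈ B w, ∃ b ∈ B w', G.Adj a b) → Planar H

/-- Module SUB (from `StMinor` with one-point sets): subgraphs of planar graphs are planar. -/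
def StSub : Prop :=
  ∀ (V W : Type) [Finite V] (G : SimpleGraph V) (H : SimpleGraph W) (g : W → V), Planar G →
    Function.Injective g → (∀ w w', H.Adj w w' → G.Adj (g w) (g w')) → Planar H

/-! ### Module PC (the inequality for a piece; 120-200 lines)

PROOF. Fix `U ⊆ K \ S`. Let `N` be the set of the `u ∈ U` with a neighbour in `I`; for `u ∈ N` choose
`Q u ∈ C` containing such a neighbour. Let `H` be the graph on `{u // u ∈ U} ⊕ ({s // s ∈ S} ⊕
{Q // Q ∈ C})` with the edges: the edges of `G[U]` which are not bad, the edges of `G` between `U` and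
`S`, and the edges `u - Q u`, `u ∈ N`. It is planar by `StMinor` (the sets `{u}`, `{s}`, `Q`) and
triangle-free (a triangle with a vertex `Q` would have two adjacent vertices `u, u' ∈ N`, a bad
edge). So `e(H) ≤ 2 (|U| + |S| + |C|) - 4` if `|U| + |S| + |C| ≥ 3` (`StEub`), and
`e(H) ≥ eN G U - b + ∑ u ∈ U, dg G u S + |N|`, where `b` is the number of bad edges; with
`2 (|S| + |C|) + b ≤ 4` this is the claim. If `|U| + |S| + |C| ≤ 2` and `U` is not empty then
`|S| + |C| ≤ 1` and the claim is clear (`|U| = 1`: left side at most `1`; `|U| = 2`, `S = C = ∅`: left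
side at most `1`, since `N` is empty). -/
def StPc : Prop :=
  ∀ (V : Type) [Finite V] (G : SimpleGraph V) (I K : Set V) (S : Finset V) (C : Finset (Set V)),
    Planar G → TF G → (S : Set V) ⊆ K →
    (∀ Q ∈ C, (G.induce Q).Connected ∧ Disjoint Q K) →
    (∀ Q ∈ C, ∀ Q' ∈ C, Q ≠ Q' → Disjoint Q Q') →
    (∀ u ∈ K \ (S : Set V), ∀ x ∈ I, G.Adj u x → ∃ Q ∈ C, x ∈ Q) →
    2 * (S.card + C.card) + (badEdges G I K S).ncard ≤ 4 →
    ∀ U : Finset V, (U : Set V) ⊆ K \ (S : Set V) →
      eN G U + ∑ u ∈ U, dg G u S + {u : V | u ∈ U ∧ ∃ x ∈ I, G.Adj u x}.ncard ≤ 2 * U.card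

/-! ### Module PIE (colouring a piece; 60-100 lines)

PROOF. From `StPc` and `StLc`. `S` has at most two vertices; colour them properly from the 2-lists
`L v \ A`. For `u ∈ K \ S` let `L' u` be `L u` (resp. `L u \ A` if `u` has a neighbour in `I`) minus
the colours of the neighbours of `u` in `S`, and `w u` the number of neighbours of `u` in `S` plus `1`
if `u` has a neighbour in `I`. Then `3 ≤ |L' u| + w u`; `StLc` with `R = K \ S` gives the colouring.
(`|L v| = 3` since `L v` is the disjoint union of `L v ∩ A` and `L v \ A`.) -/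
def StPie : Prop :=
  ∀ (V : Type) [Finite V] (G : SimpleGraph V) (I K : Set V), Planar G → TF G → GoodPiece G I K →
    ∀ (L : V → Finset ℕ) (A : Finset ℕ), (∀ v, (L v ∩ A).card = 1 ∧ (L v \ A).card = 2) →
    ∃ c : V → ℕ, (∀ v ∈ K, c v ∈ L v) ∧ (∀ v ∈ K, (∃ x ∈ I, G.Adj v x) → c v ∉ A) ∧
      ∀ u ∈ K, ∀ v ∈ K, G.Adj u v → c u ≠ c v

/-! ### Module ASM (assembly; 50-80 lines)

PROOF. From `StPie`: colour `I` by the colours of `A`, `F` from the lists `L v \ A`, and every piece
`{v | v ∉ I ∪ F ∧ κ v = i}` by `StPie`. -/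
def StAsm : Prop :=
  ∀ (V : Type) [Finite V] (G : SimpleGraph V) (I F : Set V) (ι : Type) (κ : V → ι), Planar G →
    TF G → (∀ a ∈ I, ∀ b ∈ I, ¬ G.Adj a b) → TwoChoosableOn G F → Disjoint I F →
    (∀ u ∈ F, ∀ v, v ∉ I → v ∉ F → ¬ G.Adj u v) →
    (∀ u v, u ∉ I → u ∉ F → v ∉ I → v ∉ F → G.Adj u v → κ u = κ v) →
    (∀ i, GoodPiece G I {v | v ∉ I ∧ v ∉ F ∧ κ v = i}) →
    ∀ (L : V → Finset ℕ) (A : Finset ℕ), (∀ v, (L v ∩ A).card = 1 ∧ (L v \ A).card = 2) →
    ∃ c : V → ℕ, (∀ v, c v ∈ L v) ∧ ∀ u v, G.Adj u v → c u ≠ c v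

end Pool.Agent.Helper77.HY
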